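import Pool.Agent.helper67.TPC.Spec

set_option autoImplicit false

open Finset

noncomputable section

namespace Pool.Agent.TPC

open Pool.Agent.EP

lemma CL1_solve (q m b : ℕ) (hm : 0 < m) (h : Nat.Coprime q m) : ∃ a : ℕ, q * a ≡ b [MOD m] := by
  haveI : NeZero m := ⟨by omega⟩
  refine ⟨((b : ZMod m) * (q : ZMod m)⁻¹).val, ?_⟩
  rw [← ZMod.natCast_eq_natCast_iff]
  push_cast
  rw [ZMod.natCast_zmod_val, mul_comm (b : ZMod m), ← mul_assoc, ZMod.coe_mul_inv_eq_one q h, one_mul]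

lemma CL1_primes (T k : ℕ) (hT : 0 < T) : ∃ S : Finset ℕ, S.card = k ∧
    ∀ l ∈ S, l.Prime ∧ 5 ≤ l ∧ l % 24 = 5 ∧ ¬ l ∣ T := by
  have hinf : {p : ℕ | p.Prime ∧ p % 24 = 5 ∧ T < p}.Infinite := by
    rw [Set.infinite_iff_exists_gt]
    intro n
    have hu : IsUnit ((5 : ℕ) : ZMod 24) := by
      rw [ZMod.isUnit_iff_coprime]; decide
    obtain ⟨p, hp1, hp2, hp3⟩ := Nat.forall_exists_prime_gt_and_eq_mod hu (n + T)
    refine ⟨p, ⟨hp2, ?_, by omega⟩, by omega⟩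
    have h1 := (ZMod.natCast_eq_natCast_iff p 5 24).1 hp3
    have h2 : p % 24 = 5 % 24 := h1
    omega
  obtain ⟨S, hS1, hS2⟩ := hinf.exists_subset_card_eq k
  refine ⟨S, hS2, fun l hl => ?_⟩
  obtain ⟨h1, h2, h3⟩ := hS1 hl
  refine ⟨h1, ?_, h2, ?_⟩
  · have := h1.two_le
    omega
  · intro hd
    have := Nat.le_of_dvd hT hd
    omega

lemma CL1_nonres (l : ℕ) (hl : l.Prime) (h5 : 5 ≤ l) : ∃ ν : ℕ, ∀ x : ℕ, ¬ ν ≡ x ^ 2 [MOD l] := by
  haveI : Fact l.Prime := ⟨hl⟩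
  have hF : ringChar (ZMod l) ≠ 2 := by
    rw [ZMod.ringChar_zmod_n]; omega
  obtain ⟨a, ha⟩ := FiniteField.exists_nonsquare hF
  refine ⟨a.val, fun x hx => ha ?_⟩
  rw [← ZMod.natCast_eq_natCast_iff, ZMod.natCast_zmod_val] at hx
  refine ⟨(x : ZMod l), ?_⟩
  rw [hx]; push_cast; ring

theorem CL1 : CL1_stmt := by
  classical
  intro s T N₀ hs hTodd h3T hN
  have hT0 : 0 < T := by omega
  obtain ⟨S, hSc, hSp⟩ := CL1_primes T (2 ^ s) hT0
  obtain ⟨Q, hQ⟩ : ∃ Q, Q = ∏ l ∈ S, l := ⟨_, rfl⟩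
  have h2s : 0 < 2 ^ s := by positivity
  have hcT2 : Nat.Coprime 2 T := by
    rw [Nat.coprime_two_left, Nat.odd_iff]; exact hTodd
  have hc2T : Nat.Coprime (2 ^ s) T := Nat.Coprime.pow_left s hcT2
  have hlT : ∀ l ∈ S, Nat.Coprime l T := fun l hl =>
    (Nat.Prime.coprime_iff_not_dvd (hSp l hl).1).2 (hSp l hl).2.2.2
  have hl2 : ∀ l ∈ S, Nat.Coprime l 2 := fun l hl => by
    rw [Nat.coprime_primes (hSp l hl).1 Nat.prime_two]
    have := (hSp l hl).2.1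
    omega
  have hl2s : ∀ l ∈ S, Nat.Coprime l (2 ^ s) := fun l hl => Nat.Coprime.pow_right s (hl2 l hl)
  have hQT : Nat.Coprime Q T := by rw [hQ]; exact Nat.Coprime.prod_left hlT
  have hQ2 : Nat.Coprime Q (2 ^ s) := by rw [hQ]; exact Nat.Coprime.prod_left hl2s
  have hQ0 : 0 < Q := by
    rw [hQ]; exact Finset.prod_pos fun l hl => (hSp l hl).1.pos
  -- kappa
  obtain ⟨a1, ha1⟩ := CL1_solve Q (2 ^ s) 1 h2s hQ2
  obtain ⟨a2, ha2⟩ := CL1_solve Q T (2 * 2 ^ s) hT0 hQT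
  obtain ⟨κ1, hκ1a, hκ1b⟩ := Nat.chineseRemainder hc2T a1 a2
  have hc2TQ : Nat.Coprime (2 ^ s * T) Q := Nat.Coprime.mul_left hQ2.symm hQT.symm
  obtain ⟨κ, hκa, hκb⟩ := Nat.chineseRemainder hc2TQ κ1 1
  have hκ2 : Q * κ ≡ 1 [MOD 2 ^ s] := by
    refine (Nat.ModEq.mul_left Q ((hκa.of_dvd (Dvd.intro _ rfl)).trans hκ1a)).trans ha1
  have hκT : Q * κ ≡ 2 * 2 ^ s [MOD T] := by
    refine (Nat.ModEq.mul_left Q ((hκa.of_dvd (Dvd.intro_left _ rfl)).trans hκ1b)).trans ha2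
  have hκ2c : Nat.Coprime (Q * κ) (2 ^ s) := by
    have := hκ2.gcd_eq
    rw [Nat.Coprime, this]; simp
  have hκTc : Nat.Coprime (Q * κ) T := by
    have h1 := hκT.gcd_eq
    have h2 : Nat.Coprime (2 * 2 ^ s) T := Nat.Coprime.mul_left hcT2 hc2T
    rw [Nat.Coprime, h1]; exact h2
  have hκQc : Nat.Coprime κ Q := by
    have := hκb.gcd_eq
    rw [Nat.Coprime, this]; simp
  -- x0
  obtain ⟨x₀, hx₀⟩ : ∃ x₀, x₀ = ∏ l ∈ T.primeFactors.filter (fun l => 5 ≤ l ∧ ¬ l ∣ N₀), l := ⟨_, rfl⟩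
  have hx6 : x₀.Coprime 6 := by
    rw [hx₀]
    refine Nat.Coprime.prod_left fun l hl => ?_
    obtain ⟨h1, h2, h3⟩ := Finset.mem_filter.1 hl
    have hp := Nat.prime_of_mem_primeFactors h1
    have e2 : Nat.Coprime l 2 := by
      rw [Nat.coprime_primes hp Nat.prime_two]; omega
    have e3 : Nat.Coprime l 3 := by
      rw [Nat.coprime_primes hp Nat.prime_three]; omega
    exact Nat.Coprime.mul_right e2 e3
  -- mu
  have hν : ∀ l : ℕ, ∃ ν : ℕ, l ∈ S → ∀ x : ℕ, ¬ ν ≡ x ^ 2 [MOD l] := by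
    intro l
    by_cases hl : l ∈ S
    · obtain ⟨ν, hν⟩ := CL1_nonres l (hSp l hl).1 (hSp l hl).2.1
      exact ⟨ν, fun _ => hν⟩
    · exact ⟨0, fun h => absurd h hl⟩
  choose ν hν using hν
  have hpair : Set.Pairwise (S : Set ℕ) (Function.onFun Nat.Coprime (fun l : ℕ => l)) := by
    intro a ha b hb hab
    exact (Nat.coprime_primes (hSp a ha).1 (hSp b hb).1).2 hab
  obtain ⟨μ1, hμ1⟩ := Nat.chineseRemainderOfFinset (fun l => 2 ^ s * ν l) (fun l => l) S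
    (fun l hl => (hSp l hl).1.ne_zero) hpair
  obtain ⟨μ2, hμ2⟩ := CL1_solve (Q * κ) T (N₀ + Q * κ * (2 ^ s * x₀ ^ 2)) hT0 hκTc
  obtain ⟨μ3, hμ3a, hμ3b⟩ := Nat.chineseRemainder hc2T N₀ μ2
  obtain ⟨μ, hμa, hμb⟩ := Nat.chineseRemainder hc2TQ μ3 μ1
  have hμ2s : μ ≡ N₀ [MOD 2 ^ s] := (hμa.of_dvd (Dvd.intro _ rfl)).trans hμ3a
  have hμT : Q * κ * μ ≡ N₀ + Q * κ * (2 ^ s * x₀ ^ 2) [MOD T] := by
    refine (Nat.ModEq.mul_left (Q * κ) ((hμa.of_dvd (Dvd.intro_left _ rfl)).trans hμ3b)).trans hμ2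
  have hμl : ∀ l ∈ S, ∀ x : ℕ, ¬ μ ≡ 2 ^ s * x ^ 2 [MOD l] := by
    intro l hl x hx
    have hlQ : l ∣ Q := by rw [hQ]; exact Finset.dvd_prod_of_mem _ hl
    have h1 : μ ≡ 2 ^ s * ν l [MOD l] := (hμb.of_dvd hlQ).trans (hμ1 l hl)
    have h2 : 2 ^ s * ν l ≡ 2 ^ s * x ^ 2 [MOD l] := h1.symm.trans hx
    exact hν l hl x (Nat.ModEq.cancel_left_of_coprime (hl2s l hl) h2)
  -- coprimality of mu
  have hμc2 : Nat.Coprime μ (2 ^ s) := by
    have h1 := hμ2s.gcd_eq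
    have h2 : Nat.Coprime N₀ (2 ^ s) := by
      refine Nat.Coprime.pow_right s ?_
      rw [Nat.coprime_two_right, Nat.odd_iff]; omega
    rw [Nat.Coprime, h1]; exact h2
  have hμcQ : Nat.Coprime μ Q := by
    rw [hQ]
    refine Nat.Coprime.prod_right fun l hl => ?_
    rw [Nat.coprime_comm, Nat.Prime.coprime_iff_not_dvd (hSp l hl).1]
    intro hd
    refine hμl l hl 0 ?_
    have h0 : μ ≡ 0 [MOD l] := (Nat.modEq_zero_iff_dvd).2 hd
    simpa using h0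
  have hμcT : Nat.Coprime μ T := by
    rw [Nat.coprime_comm]
    refine Nat.Coprime.symm ?_
    by_contra hnc
    obtain ⟨p, hp, hpμ, hpT⟩ := Nat.Prime.not_coprime_iff_dvd.1 hnc
    have h1 : Q * κ * μ ≡ N₀ + Q * κ * (2 ^ s * x₀ ^ 2) [MOD p] := hμT.of_dvd hpT
    have h2 : Q * κ * μ ≡ 0 [MOD p] := (Nat.modEq_zero_iff_dvd).2 (Dvd.dvd.mul_left hpμ _)
    have h3 : p ∣ N₀ + Q * κ * (2 ^ s * x₀ ^ 2) := (Nat.modEq_zero_iff_dvd).1 (h1.symm.trans h2)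
    have hp2 : p ≠ 2 := by
      rintro rfl; omega
    by_cases hp3 : p = 3
    · subst hp3
      have e1 : Q * κ ≡ 2 * 2 ^ s [MOD 3] := hκT.of_dvd hpT
      have e2 : (((N₀ + Q * κ * (2 ^ s * x₀ ^ 2) : ℕ) : ℕ) : ZMod 3) = 0 := by
        rw [ZMod.natCast_eq_zero_iff]; exact h3
      have e3 : ((Q * κ : ℕ) : ZMod 3) = ((2 * 2 ^ s : ℕ) : ZMod 3) :=
        (ZMod.natCast_eq_natCast_iff _ _ 3).2 e1
      have e4 : ((N₀ : ℕ) : ZMod 3) = 2 := by
        have : N₀ ≡ 2 [MOD 3] := by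
          show N₀ % 3 = 2 % 3
          omega
        exact_mod_cast (ZMod.natCast_eq_natCast_iff _ _ 3).2 this
      have e5 : ((x₀ : ℕ) : ZMod 3) ≠ 0 := by
        rw [Ne, ZMod.natCast_eq_zero_iff]
        intro hd
        have e6 : Nat.Coprime x₀ 3 := Nat.Coprime.coprime_dvd_right (by norm_num) hx6
        have e7 := Nat.dvd_gcd hd (dvd_refl 3)
        rw [e6] at e7
        omega
      have e8 : ((2 : ℕ) : ZMod 3) ^ s ≠ 0 := by
        apply pow_ne_zero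
        decide
      push_cast at e2 e3
      rw [e3, e4] at e2
      push_cast at e8
      have key : ∀ a b : ZMod 3, a ≠ 0 → b ≠ 0 → (2 : ZMod 3) + 2 * a * (a * b ^ 2) ≠ 0 := by decide
      exact key _ _ e8 e5 e2
    · have hp5 : 5 ≤ p := by
        have := hp.two_le
        have h4 : p ≠ 4 := by
          rintro rfl
          exact absurd hp (by norm_num)
        omega
      by_cases hpN : p ∣ N₀
      · have e1 : p ∣ Q * κ * (2 ^ s * x₀ ^ 2) := (Nat.dvd_add_right hpN).1 h3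
        rcases (Nat.Prime.dvd_mul hp).1 e1 with e2 | e2
        · have e3 : Nat.Coprime (Q * κ) p := Nat.Coprime.coprime_dvd_right hpT hκTc
          exact (Nat.Prime.coprime_iff_not_dvd hp).1 e3.symm e2
        · rcases (Nat.Prime.dvd_mul hp).1 e2 with e3 | e3
          · have e4 := hp.dvd_of_dvd_pow e3
            exact hp2 ((Nat.prime_dvd_prime_iff_eq hp Nat.prime_two).1 e4)
          · have e4 := hp.dvd_of_dvd_pow e3
            rw [hx₀, Prime.dvd_finset_prod_iff hp.prime] at e4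
            obtain ⟨l, hl, hpl⟩ := e4
            obtain ⟨g1, g2, g3⟩ := Finset.mem_filter.1 hl
            have g4 := (Nat.prime_dvd_prime_iff_eq hp (Nat.prime_of_mem_primeFactors g1)).1 hpl
            rw [← g4] at g3
            exact g3 hpN
      · have e1 : p ∣ x₀ := by
          rw [hx₀]
          refine Finset.dvd_prod_of_mem (fun l => l) (Finset.mem_filter.2 ⟨?_, hp5, hpN⟩)
          exact Nat.mem_primeFactors.2 ⟨hp, hpT, by omega⟩
        have e2 : p ∣ Q * κ * (2 ^ s * x₀ ^ 2) :=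
          Dvd.dvd.mul_left (Dvd.dvd.mul_left (dvd_pow e1 two_ne_zero) _) _
        exact hpN ((Nat.dvd_add_left e2).1 h3)
  refine ⟨S, μ, κ, x₀, ?_⟩
  rw [hQ] at hκ2 hκT hμT hκ2c hκTc hκQc hμcQ
  constructor
  · intro l hl
    obtain ⟨h1, h2, h3, h4⟩ := hSp l hl
    exact ⟨h1, h2, by omega, h4⟩
  · exact hSc.ge
  · exact Nat.Coprime.mul_right (Nat.Coprime.mul_right hμc2 hμcT) hμcQ
  · exact Nat.Coprime.mul_right (Nat.Coprime.mul_right
      (Nat.Coprime.coprime_mul_left hκ2c) (Nat.Coprime.coprime_mul_left hκTc)) hκQc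
  · exact hx6
  · exact hκ2
  · exact hκT
  · exact hμ2s
  · exact hμT
  · exact hμl

end Pool.Agent.TPC
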