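import Pool.Agent.helper67.TPC.Spec

set_option autoImplicit false

open Finset

noncomputable section

namespace Pool.Agent.TPC

open Pool.Agent.EP

lemma MUL_two (P : Finset ℕ) (Q y N : ℕ) (hy : 4 * Q < y) (hN0 : 0 < N)
    (hN : N ≤ 4 * Q * (y * y)) (hQ : ∀ q ∈ P, q.Prime ∧ y < q ∧ q ∣ N) : P.card ≤ 2 := by
  by_contra hcon
  push Not at hcon
  rw [Finset.two_lt_card] at hcon
  obtain ⟨a, ha, b, hb, c, hc, hab, hac, hbc⟩ := hcon
  obtain ⟨pa, ya, da⟩ := hQ a ha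
  obtain ⟨pb, yb, db⟩ := hQ b hb
  obtain ⟨pc, yc, dc⟩ := hQ c hc
  have cab : Nat.Coprime a b := (Nat.coprime_primes pa pb).2 hab
  have cac : Nat.Coprime a c := (Nat.coprime_primes pa pc).2 hac
  have cbc : Nat.Coprime b c := (Nat.coprime_primes pb pc).2 hbc
  have h1 : a * b ∣ N := Nat.Coprime.mul_dvd_of_dvd_of_dvd cab da db
  have h2 : a * b * c ∣ N :=
    Nat.Coprime.mul_dvd_of_dvd_of_dvd (Nat.Coprime.mul_left cac cbc) h1 dc
  have h3 : a * b * c ≤ N := Nat.le_of_dvd hN0 h2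
  have h4 : y * y ≤ a * b := Nat.mul_le_mul ya.le yb.le
  have h5 : y * y * (y + 1) ≤ a * b * c := Nat.mul_le_mul h4 yc
  have h6 : 4 * Q * (y * y) ≤ y * (y * y) := Nat.mul_le_mul_right _ hy.le
  have h7 : 0 < y * y := Nat.mul_pos (by omega) (by omega)
  have h8 : y * y * (y + 1) = y * (y * y) + y * y := by ring
  omega

lemma MUL_sqrt (s u B C : ℕ) (h : 2 ^ s * u ^ 2 < B) (hB : B ≤ C) :
    u ∈ range (Nat.sqrt C + 1) := by
  rw [Finset.mem_range, Nat.lt_succ_iff, Nat.le_sqrt]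
  have h1 : 1 ≤ 2 ^ s := Nat.one_le_two_pow
  have h2 : 1 * u ^ 2 ≤ 2 ^ s * u ^ 2 := Nat.mul_le_mul_right _ h1
  have h3 : u * u = u ^ 2 := by ring
  omega

theorem MUL : MUL_stmt := by
  classical
  intro s Q m μ κ y n hQ1 hy
  set F : Finset (ℕ × ℕ) := {x ∈ Pq m μ y ×ˢ Pq m κ y | Rel s Q x.1 x.2 n} with hF
  by_cases hne : F.Nonempty
  swap
  · rw [Finset.not_nonempty_iff_eq_empty] at hne
    rw [hne]; simp
  set N : ℕ := 24 * n - 1 with hNdef
  have key : ∀ M p : ℕ, (M, p) ∈ F →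
      (M.Prime ∧ p.Prime ∧ y < p ∧ p ≤ 2 * y ∧ y < M ∧ M ≤ 2 * y) ∧ Rel s Q M p n := by
    intro M p h
    simp only [hF, Pq, Finset.mem_filter, Finset.mem_product, Finset.mem_Ioc] at h
    obtain ⟨⟨⟨⟨h1, h2⟩, h3, h4⟩, ⟨h5, h6⟩, h7, h8⟩, h9⟩ := h
    exact ⟨⟨h3, h7, h5, h6, h1, h2⟩, h9⟩
  have hyy : 4 * Q * (y * y) = (Q * (2 * y)) * (2 * y) := by ring
  have hs : 0 < n ∧ N ≤ 4 * Q * (y * y) := by
    obtain ⟨⟨M, p⟩, hx⟩ := hne
    obtain ⟨⟨hM, hp, h1, h2, h3, h4⟩, hR⟩ := key M p hx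
    have h6 : Q * p ≤ Q * (2 * y) := Nat.mul_le_mul_left _ h2
    rcases hR with ⟨u, hu, he⟩ | ⟨u, hu, he⟩
    · have hs0 : 0 < n := by
        rcases Nat.eq_zero_or_pos n with h | h
        · subst h; omega
        · exact h
      refine ⟨hs0, ?_⟩
      have hN1 : N = Q * p * (M - 2 ^ s * u ^ 2) := by omega
      rw [hN1, hyy]
      exact Nat.mul_le_mul h6 (by omega)
    · have hs0 : 0 < n := by
        rcases Nat.eq_zero_or_pos n with h | h
        · subst h; omega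
        · exact h
      refine ⟨hs0, ?_⟩
      have hN1 : N = (Q * p - 2 ^ s * u ^ 2) * M := by omega
      rw [hN1, hyy]
      exact Nat.mul_le_mul (by omega) h4
  obtain ⟨hs0, hN⟩ := hs
  have hN0 : 0 < N := by omega
  set Q1 : Finset ℕ := (Pq m κ y).filter (fun p => p ∣ N) with hQ1'
  set Q2 : Finset ℕ := (Pq m μ y).filter (fun p => p ∣ N) with hQ2'
  have c1 : Q1.card ≤ 2 := by
    refine MUL_two Q1 Q y N hy hN0 hN ?_
    intro q hq
    simp only [hQ1', Pq, Finset.mem_filter, Finset.mem_Ioc] at hq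
    obtain ⟨⟨⟨h1, h2⟩, h3, h4⟩, h5⟩ := hq
    exact ⟨h3, h1, h5⟩
  have c2 : Q2.card ≤ 2 := by
    refine MUL_two Q2 Q y N hy hN0 hN ?_
    intro q hq
    simp only [hQ2', Pq, Finset.mem_filter, Finset.mem_Ioc] at hq
    obtain ⟨⟨⟨h1, h2⟩, h3, h4⟩, h5⟩ := hq
    exact ⟨h3, h1, h5⟩
  set R : Finset ℕ := range (Nat.sqrt (2 * Q * y) + 1) with hR
  have hsub : F ⊆
      ((Q1 ×ˢ R).image (fun z => (N / (Q * z.1) + 2 ^ s * z.2 ^ 2, z.1))) ∪
      ((Q2 ×ˢ R).image (fun z => (z.1, (N / z.1 + 2 ^ s * z.2 ^ 2) / Q))) := by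
    rintro ⟨M, p⟩ hx
    obtain ⟨⟨hM, hp, h1, h2, h3, h4⟩, hRel⟩ := key M p hx
    have hmem : M ∈ Pq m μ y ∧ p ∈ Pq m κ y := by
      simp only [hF, Finset.mem_filter, Finset.mem_product] at hx
      exact hx.1
    have hp0 : 0 < p := hp.pos
    have hM0 : 0 < M := hM.pos
    have hQp : 0 < Q * p := Nat.mul_pos hQ1 hp0
    rcases hRel with ⟨u, hu, he⟩ | ⟨u, hu, he⟩
    · have hN1 : N = Q * p * (M - 2 ^ s * u ^ 2) := by omega
      have hpd : p ∣ N := ⟨Q * (M - 2 ^ s * u ^ 2), by rw [hN1]; ring⟩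
      refine Finset.mem_union_left _ (Finset.mem_image.2 ⟨(p, u), ?_, ?_⟩)
      · refine Finset.mem_product.2 ⟨Finset.mem_filter.2 ⟨hmem.2, hpd⟩, MUL_sqrt s u M _ hu ?_⟩
        have h8 : 1 * (2 * y) ≤ Q * (2 * y) := Nat.mul_le_mul_right _ hQ1
        have h9 : 2 * Q * y = Q * (2 * y) := by ring
        omega
      · have hd : N / (Q * p) = M - 2 ^ s * u ^ 2 := by
          rw [hN1]; exact Nat.mul_div_cancel_left _ hQp
        simp only [hd, Prod.mk.injEq, and_true]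
        omega
    · have hN1 : N = (Q * p - 2 ^ s * u ^ 2) * M := by omega
      have hpd : M ∣ N := ⟨Q * p - 2 ^ s * u ^ 2, by rw [hN1]; ring⟩
      refine Finset.mem_union_right _ (Finset.mem_image.2 ⟨(M, u), ?_, ?_⟩)
      · refine Finset.mem_product.2 ⟨Finset.mem_filter.2 ⟨hmem.1, hpd⟩,
          MUL_sqrt s u (Q * p) _ hu ?_⟩
        have h8 : Q * p ≤ Q * (2 * y) := Nat.mul_le_mul_left _ h2
        have h9 : 2 * Q * y = Q * (2 * y) := by ring
        omega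
      · have hd : N / M = Q * p - 2 ^ s * u ^ 2 := by
          rw [hN1]; exact Nat.mul_div_cancel _ hM0
        simp only [hd, Prod.mk.injEq, true_and]
        have : Q * p - 2 ^ s * u ^ 2 + 2 ^ s * u ^ 2 = Q * p := by omega
        rw [this]
        exact Nat.mul_div_cancel_left _ hQ1
  have hRc : R.card = Nat.sqrt (2 * Q * y) + 1 := by rw [hR, Finset.card_range]
  calc F.card ≤ _ := Finset.card_le_card hsub
    _ ≤ ((Q1 ×ˢ R).image (fun z => (N / (Q * z.1) + 2 ^ s * z.2 ^ 2, z.1))).card +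
      ((Q2 ×ˢ R).image (fun z => (z.1, (N / z.1 + 2 ^ s * z.2 ^ 2) / Q))).card :=
        Finset.card_union_le _ _
    _ ≤ (Q1 ×ˢ R).card + (Q2 ×ˢ R).card :=
        Nat.add_le_add Finset.card_image_le Finset.card_image_le
    _ = (Q1.card + Q2.card) * (Nat.sqrt (2 * Q * y) + 1) := by
        rw [Finset.card_product, Finset.card_product, hRc]; ring
    _ ≤ 4 * (Nat.sqrt (2 * Q * y) + 1) := Nat.mul_le_mul_right _ (by omega)

end Pool.Agent.TPC
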