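import Pool.Agent.helper67.TPC.Spec

set_option autoImplicit false

open Finset

noncomputable section

namespace Pool.Agent.TPC

open Pool.Agent.EP

theorem PAR_aux : ∀ a e : ZMod 2, a ≠ e → a + 1 = e := by decide

theorem PAR : PAR_stmt := by
  intro D g hD hper hex e
  obtain ⟨x, hx⟩ := hex
  have h1 : ∀ v, ∑ u ∈ range (v + D), g u = ∑ u ∈ range v, g u + ∑ u ∈ range D, g u := by
    intro v
    induction v with
    | zero => simp
    | succ v ih =>
      have e1 : v + 1 + D = (v + D) + 1 := by ring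
      rw [e1, Finset.sum_range_succ, ih, Finset.sum_range_succ, hper]
      ring
  have h2 : ∀ v, ∑ u ∈ range (v + 2 * D), g u = ∑ u ∈ range v, g u := by
    intro v
    have e1 : v + 2 * D = (v + D) + D := by ring
    rw [e1, h1, h1, add_assoc, CharTwo.add_self_eq_zero, add_zero]
  have h3 : ∀ k v, ∑ u ∈ range (v + 2 * D * k), g u = ∑ u ∈ range v, g u := by
    intro k
    induction k with
    | zero => intro v; simp
    | succ k ih =>
      intro v
      have e1 : v + 2 * D * (k + 1) = (v + 2 * D * k) + 2 * D := by ring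
      rw [e1, h2, ih]
  have h4 : ∀ v, ∑ u ∈ range v, g u = ∑ u ∈ range (v % (2 * D)), g u := by
    intro v
    have e1 := h3 (v / (2 * D)) (v % (2 * D))
    rw [Nat.mod_add_div] at e1
    exact e1
  obtain ⟨c, hc⟩ : ∃ c, ∑ u ∈ range c, g u = e := by
    by_cases h : ∑ u ∈ range x, g u = e
    · exact ⟨x, h⟩
    · refine ⟨x + 1, ?_⟩
      rw [Finset.sum_range_succ, hx]
      exact PAR_aux _ _ h
  refine ⟨c, fun v hv => ?_⟩
  rw [h4 v, hv, ← h4 c, hc]

end Pool.Agent.TPC
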